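import Pool.Agent.H353R3.Arc6

/-!
# Arcs through the good moduli space of `[Hom(k², k³) / SL₂]`

The quotient stack `𝒳 = [Hom(k², k³) / SL₂]` is the stack of triples `(E, vol, u)`, where `E` is a
rank two vector bundle, `vol` a trivialisation of its determinant and `u` a linear map from `E` to
the trivial bundle of rank three (`Obj`, `Obj.Iso`, with pullbacks `Obj.baseChange`,
`Obj.Iso.baseChange`). As `SL₂` is linearly reductive in characteristic zero, its good moduli space
is `Spec k[Hom(k², k³)]^{SL₂}`, which is `𝔸³` by the three minors, and `π : 𝒳 → 𝔸³` sends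
`(E, vol, u)` to the `p` with `u x × u y = vol(x, y) p` (`Obj.LiesOver`). All stabilizers are
trivial, `𝔾_a` or `SL₂`, which are special, and `π` is an isomorphism over `𝔸³ ∖ {0}`. But
`sep_π` vanishes at all arcs `φ` with `φ(0) = 0`, a cylinder over a point of `𝔸³`.
-/

open Matrix MvPolynomial Pool.Agent.H353R3

namespace Pool.Agent.Results.MP_d9eb96_ag.SpecialArcs

universe u

/-- The ring of invariants of `SL₂` on `Hom(k², k³)` is the polynomial ring in the three minors:
the good moduli space of `𝒳` is `𝔸³`. -/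
def InvariantRing (k : Type u) [Field k] : Prop :=
  (∀ Q : MvPolynomial (Fin 3) k,
    (∀ A : Matrix (Fin 3) (Fin 2) k, eval (minors A) Q = 0) → Q = 0) ∧
  ∀ P : MvPolynomial (Fin 3 × Fin 2) k,
    Invariant P ↔ ∃ Q : MvPolynomial (Fin 3) k, ∀ A : Matrix (Fin 3) (Fin 2) k,
      evalAt A P = eval (minors A) Q

/-- The morphism `π : 𝒳 → 𝔸³`: every object over `R` lies over exactly one point of `𝔸³(R)`,
compatibly with pullbacks. -/
def Morphism (k : Type u) [Field k] : Prop :=
  (∀ (R : Type u) [CommRing R] [Algebra k R] (a : Obj R), ∃! p : Fin 3 → R, a.LiesOver p) ∧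
  ∀ (R S : Type u) [CommRing R] [CommRing S] [Algebra k R] [Algebra R S] (a : Obj R)
    (p : Fin 3 → R), a.LiesOver p → (a.baseChange S).LiesOver fun i => algebraMap R S (p i)

/-- `π` is an isomorphism over `𝔸³ ∖ {0}`: over an `R`-point `p` of it there is an object, and
there is exactly one isomorphism between any two objects over `p`. -/
def IsoOutsideOrigin (k : Type u) [Field k] : Prop :=
  ∀ (R : Type u) [CommRing R] [Algebra k R] (p : Fin 3 → R), (∃ q : Fin 3 → R, q ⬝ᵥ p = 1) →
    (∃ a : Obj R, a.LiesOver p) ∧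
      ∀ a b : Obj R, a.LiesOver p → b.LiesOver p → Nonempty (Unique (a.Iso b))

/-- The isomorphism `e` is given by the matrix `g`. -/
def GivenBy {R : Type u} [CommRing R] {A B : Matrix (Fin 3) (Fin 2) R} (e : (std A).Iso (std B))
    (g : SpecialLinearGroup (Fin 2) R) : Prop := ∀ x : Fin 2 → R, e.1 x = g.1 *ᵥ x

/-- Over local rings `𝒳` is the action groupoid of `SL₂` on `Hom(k², k³)`, and `π` is given by
the minors. -/
def ActionGroupoid (k : Type u) [Field k] : Prop :=
  ∀ (R : Type u) [CommRing R] [Algebra k R] [IsLocalRing R],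
    (∀ a : Obj R, ∃ A : Matrix (Fin 3) (Fin 2) R, Nonempty (a.Iso (std A))) ∧
    (∀ A B : Matrix (Fin 3) (Fin 2) R,
      (∀ e : (std A).Iso (std B), ∃! g : SpecialLinearGroup (Fin 2) R,
        B * g.1 = A ∧ GivenBy e g) ∧
      ∀ g : SpecialLinearGroup (Fin 2) R, B * g.1 = A →
        ∃! e : (std A).Iso (std B), GivenBy e g) ∧
    ∀ A : Matrix (Fin 3) (Fin 2) R, (std A).LiesOver (minors A)

/-- The stabilizers are trivial, conjugate in `SL₂` to the additive group of the unipotent upper
triangular matrices, or all of `SL₂`. -/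
def Stabilizers (k : Type u) [Field k] : Prop :=
  ∀ (K : Type u) [Field K] [Algebra k K] (A : Matrix (Fin 3) (Fin 2) K),
    (∀ (S : Type u) [CommRing S] [Algebra K S], Stab A S = {1}) ∨
    (∃ h : SpecialLinearGroup (Fin 2) K, ∀ (S : Type u) [CommRing S] [Algebra K S],
      Stab A S = {g | ∃ c : S, g.1 * (h.1.map (algebraMap K S)) =
        (h.1.map (algebraMap K S)) * !![1, c; 0, 1]}) ∨
    (∀ (S : Type u) [CommRing S] [Algebra K S], Stab A S = Set.univ)

/-- The arcs: every arc of `𝔸³` lifts to `𝒳`, in exactly one way up to isomorphism if it does not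
start at the origin, and in infinitely many ways if it does; so the zero set of `sep_π` is the
cylinder of the arcs `φ` with `φ(0) = 0`. -/
def Arcs (k : Type u) [Field k] : Prop :=
  ∀ (K : Type u) [Field K] [Algebra k K] (φ : Fin 3 → PowerSeries K),
    Nonempty (Fiber φ) ∧
    ((∃ i, PowerSeries.constantCoeff (φ i) ≠ 0) → Nonempty (Unique (Fiber φ)) ∧ sep φ = 1) ∧
    ((∀ i, PowerSeries.constantCoeff (φ i) = 0) → Infinite (Fiber φ) ∧ sep φ = 0) ∧
    (sep φ = 0 ↔ ∀ i, PowerSeries.constantCoeff (φ i) = 0)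

theorem result (k : Type u) [Field k] [IsAlgClosed k] [CharZero k] :
    InvariantRing k ∧ Morphism k ∧ IsoOutsideOrigin k ∧ ActionGroupoid k ∧ Stabilizers k ∧
      Arcs k := by
  refine ⟨⟨eq_zero_of_minors, invariant_iff⟩, ⟨?_, ?_⟩, ?_, ?_, ?_, ?_⟩
  · intro R _ _ a
    exact a.existsUnique_liesOver
  · intro R S _ _ _ _ a p h
    exact h.baseChange S
  · rintro R _ _ p ⟨q, hq⟩
    exact ⟨⟨perpObj hq, perpObj_liesOver hq⟩, fun a b ha hb => unique_iso ha hb ⟨q, hq⟩⟩
  · intro R _ _ _
    refine ⟨fun a => a.exists_std, fun A B => ?_, std_liesOver⟩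
    obtain ⟨f, hf⟩ := iso_std A B
    constructor
    · intro e
      refine ⟨(f e).1, ⟨(f e).2, hf e⟩, ?_⟩
      rintro g ⟨hg, hg'⟩
      apply Subtype.ext
      apply Matrix.ext_of_mulVec_single
      intro i
      rw [← hf e, hg']
    · intro g hg
      refine ⟨f.symm ⟨g, hg⟩, ?_, ?_⟩
      · intro x
        rw [hf, Equiv.apply_symm_apply]
      · intro e he
        apply Subtype.ext
        apply LinearEquiv.ext
        intro x
        rw [hf (f.symm ⟨g, hg⟩), Equiv.apply_symm_apply]
        exact he x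
  · intro K _ _ A
    exact stab_cases A
  · intro K _ _ φ
    have : Infinite K := Infinite.of_injective _ (algebraMap k K).injective
    have h1 : (∃ i, PowerSeries.constantCoeff (φ i) ≠ 0) → sep φ = 1 := sep_one
    have h0 : (∀ i, PowerSeries.constantCoeff (φ i) = 0) → sep φ = 0 := sep_zero
    refine ⟨?_, ?_, fun h => ⟨fiber_infinite h, h0 h⟩, ?_, h0⟩
    · obtain ⟨A, hA⟩ := exists_minors φ
      exact ⟨Quotient.mk _ ⟨std A, std_liesOver_iff.2 hA.symm⟩⟩
    · rintro ⟨i, hi⟩
      exact ⟨fiber_unique (unimod_of_coeff hi), h1 ⟨i, hi⟩⟩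
    · intro h
      by_contra hcon
      push Not at hcon
      rw [h1 hcon] at h
      exact one_ne_zero h

end Pool.Agent.Results.MP_d9eb96_ag.SpecialArcs
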